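import Pool.Agent.helper46.ESM.Spec
import Pool.Agent.helper80.EN.Asm

/-!
# Row `es:QNL` (MP_43ab4e_al)

The quotient by the commutator subgroup of a normal subgroup with nilpotent quotient.
-/

set_option autoImplicit false

namespace Pool.Agent.helper46.ESM

open Subgroup Pool.Agent.helper80.EN

universe u

/-- images of groups generated by right Engel elements -/
theorem QNL_gen (P : Type u) [Group P] (hP : GenRE P) (N : Subgroup P) [N.Normal] :
    GenRE (P ⧸ N) := by
  unfold GenRE at hP ⊢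
  have h1 : Subgroup.map (QuotientGroup.mk' N) (closure {b : P | RightEngel b}) = ⊤ := by
    rw [hP]
    exact Subgroup.map_top_of_surjective _ (QuotientGroup.mk'_surjective N)
  rw [MonoidHom.map_closure] at h1
  rw [eq_top_iff, ← h1]
  apply Subgroup.closure_mono
  rintro _ ⟨b, hb, rfl⟩
  intro g
  obtain ⟨g, rfl⟩ := QuotientGroup.mk'_surjective N g
  obtain ⟨n, hn⟩ := hb g
  refine ⟨n, ?_⟩
  have h2 := (Asm.aBAS P).2.1 (P ⧸ N) (QuotientGroup.mk' N) b g n
  rw [← h2, hn, map_one]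

theorem QNL (h1 : NLP_stmt.{u}) : QNL_stmt.{u} := by
  intro P _ hfg hgen D hD hnil
  have : Group.FG P := hfg
  refine h1 (P ⧸ ⁅D, D⁆) inferInstance (QNL_gen P hgen _) ?_
  have hNn : (D.map (QuotientGroup.mk' ⁅D, D⁆)).Normal :=
    Subgroup.Normal.map hD _ (QuotientGroup.mk'_surjective _)
  refine InL.ext (D.map (QuotientGroup.mk' ⁅D, D⁆)) ?_ ?_
  · apply Asm.aLAB
    rintro ⟨_, a, ha, rfl⟩ ⟨_, b, hb, rfl⟩
    apply Subtype.ext
    show QuotientGroup.mk' ⁅D, D⁆ a * QuotientGroup.mk' ⁅D, D⁆ b =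
      QuotientGroup.mk' ⁅D, D⁆ b * QuotientGroup.mk' ⁅D, D⁆ a
    rw [← map_mul, ← map_mul]
    rw [QuotientGroup.mk'_eq_mk']
    refine ⟨b⁻¹ * a⁻¹ * b * a, ?_, ?_⟩
    · have := Subgroup.commutator_mem_commutator (D.inv_mem hb) (D.inv_mem ha)
      rw [commutatorElement_def, inv_inv, inv_inv] at this
      exact this
    · group
  · have hle : ⁅D, D⁆ ≤ D := Subgroup.commutator_le_left D D
    have h2 : InL (P ⧸ D) := by
      apply (Asm.aLNI (P ⧸ D)).2
      intro K _ _
      infer_instance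
    let e := QuotientGroup.quotientQuotientEquivQuotient ⁅D, D⁆ D hle
    exact InL.sub e.toMonoidHom e.injective h2

end Pool.Agent.helper46.ESM
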